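import Mathlib
import Pool.Agent.Lib.MP_bf4c0e_co.Recursion

namespace Pool.Agent.Results.MP_bf4c0e_co.PentagonUpper

open Pool.Agent.Lib.MP_bf4c0e_co

/-- `R_k(C₅) ≤ 5 k √(2^k k!)` for all `k ≥ 1`. The set is written as in the frozen statement; it is
also shown to be nonempty, so that its infimum is the Ramsey number. -/
theorem result (k : ℕ) (hk : 1 ≤ k) :
    {m : ℕ | ∀ c : Fin m → Fin m → Fin k, (∀ a b, c a b = c b a) →
      ∃ f : Fin 5 → Fin m, Function.Injective f ∧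
        ∀ i : Fin 5, c (f i) (f (i + 1)) = c (f 0) (f 1)}.Nonempty ∧
    ((sInf {m : ℕ | ∀ c : Fin m → Fin m → Fin k, (∀ a b, c a b = c b a) →
      ∃ f : Fin 5 → Fin m, Function.Injective f ∧
        ∀ i : Fin 5, c (f i) (f (i + 1)) = c (f 0) (f 1)} : ℕ) : ℝ) ≤
      5 * (k : ℝ) * Real.sqrt ((2 : ℝ) ^ k * (k.factorial : ℝ)) := by
  have hmem : ⌊5 * (k : ℝ) * den k⌋₊ ∈ {m : ℕ | ∀ c : Fin m → Fin m → Fin k,
      (∀ a b, c a b = c b a) → ∃ f : Fin 5 → Fin m, Function.Injective f ∧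
        ∀ i : Fin 5, c (f i) (f (i + 1)) = c (f 0) (f 1)} := by
    intro c hc
    refine exists_pentagon hk ?_ c hc
    have := Nat.lt_floor_add_one (5 * (k : ℝ) * den k)
    linarith
  refine ⟨⟨_, hmem⟩, ?_⟩
  have h1 := Nat.sInf_le hmem
  have h2 : (0 : ℝ) ≤ 5 * (k : ℝ) * den k := mul_nonneg (by positivity) (den_nonneg k)
  calc _ ≤ ((⌊5 * (k : ℝ) * den k⌋₊ : ℕ) : ℝ) := by exact_mod_cast h1
    _ ≤ 5 * (k : ℝ) * den k := Nat.floor_le h2
    _ = _ := rfl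

end Pool.Agent.Results.MP_bf4c0e_co.PentagonUpper
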