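import Mathlib
import Pool.Agent.Lib.MP_bf4c0e_coT.Final

namespace Pool.Agent.Results.MP_bf4c0e_co.RatioBound

open Pool.Agent.Lib.MP_bf4c0e_coT

/-- For all `k ≥ 1` the ratio `R_k(C₅) / R_k(K₃)` is at most `60 k^(3/2) R_k(C₅)^(3/20)`, and hence
at most `80 k² (2^k k!)^(3/40)`. The sets are written as in the frozen statement; both are also
shown to be nonempty, so that their infima are the Ramsey numbers. -/
theorem result (k : ℕ) (hk : 1 ≤ k) :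
    {m : ℕ | ∀ c : Fin m → Fin m → Fin k, (∀ a b, c a b = c b a) →
      ∃ f : Fin 5 → Fin m, Function.Injective f ∧
        ∀ i : Fin 5, c (f i) (f (i + 1)) = c (f 0) (f 1)}.Nonempty ∧
    {m : ℕ | ∀ c : Fin m → Fin m → Fin k, (∀ a b, c a b = c b a) →
      ∃ f : Fin 3 → Fin m, Function.Injective f ∧
        ∀ i : Fin 3, c (f i) (f (i + 1)) = c (f 0) (f 1)}.Nonempty ∧
    ((sInf {m : ℕ | ∀ c : Fin m → Fin m → Fin k, (∀ a b, c a b = c b a) →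
        ∃ f : Fin 5 → Fin m, Function.Injective f ∧
          ∀ i : Fin 5, c (f i) (f (i + 1)) = c (f 0) (f 1)} : ℕ) : ℝ) /
      ((sInf {m : ℕ | ∀ c : Fin m → Fin m → Fin k, (∀ a b, c a b = c b a) →
        ∃ f : Fin 3 → Fin m, Function.Injective f ∧
          ∀ i : Fin 3, c (f i) (f (i + 1)) = c (f 0) (f 1)} : ℕ) : ℝ) ≤
      60 * (k : ℝ) ^ (3 / 2 : ℝ) *
        ((sInf {m : ℕ | ∀ c : Fin m → Fin m → Fin k, (∀ a b, c a b = c b a) →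
          ∃ f : Fin 5 → Fin m, Function.Injective f ∧
            ∀ i : Fin 5, c (f i) (f (i + 1)) = c (f 0) (f 1)} : ℕ) : ℝ) ^ (3 / 20 : ℝ) ∧
    60 * (k : ℝ) ^ (3 / 2 : ℝ) *
        ((sInf {m : ℕ | ∀ c : Fin m → Fin m → Fin k, (∀ a b, c a b = c b a) →
          ∃ f : Fin 5 → Fin m, Function.Injective f ∧
            ∀ i : Fin 5, c (f i) (f (i + 1)) = c (f 0) (f 1)} : ℕ) : ℝ) ^ (3 / 20 : ℝ) ≤
      80 * (k : ℝ) ^ 2 * ((2 : ℝ) ^ k * (k.factorial : ℝ)) ^ (3 / 40 : ℝ) := by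
  refine ⟨S5_nonempty hk, S3_nonempty hk, ?_, ratio2 hk⟩
  have h1 := ratio1 hk
  rcases (Nat.cast_nonneg (sInf (S3 k)) : (0 : ℝ) ≤ (sInf (S3 k) : ℕ)).eq_or_lt with h0 | h0
  · have h2 : ((sInf (S5 k) : ℕ) : ℝ) / ((sInf (S3 k) : ℕ) : ℝ) ≤
        60 * (k : ℝ) ^ (3 / 2 : ℝ) * ((sInf (S5 k) : ℕ) : ℝ) ^ (3 / 20 : ℝ) := by
      rw [← h0, div_zero]; positivity
    exact h2
  · exact (div_le_iff₀ h0).mpr h1

end Pool.Agent.Results.MP_bf4c0e_co.RatioBound
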